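import Pool.Agent.helper36.HK.SpecN

/-!
# Project fi, row GBX: the primes in a box
-/

set_option autoImplicit false

open Finset

noncomputable section

namespace Pool.Agent.FI

private theorem GBX_gg (p : ℕ) (hp : p.Prime) : 0 ≤ gg p ∧ gg p ≤ 1 := by
  have h2 : (2 : ℝ) ≤ p := by exact_mod_cast hp.two_le
  have h : ch8 p ≤ 1 := by
    unfold ch8
    split_ifs <;> norm_num
  have h3 : 1 ≤ (p : ℝ) - ch8 p := by linarith
  unfold gg
  constructor
  · exact div_nonneg (by norm_num) (by linarith)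
  · rw [div_le_one (by linarith)]
    exact h3

private theorem GBX_P (d : ℕ) : 0 ≤ ∏ p ∈ d.primeFactors, gg p ∧ ∏ p ∈ d.primeFactors, gg p ≤ 1 := by
  constructor
  · exact prod_nonneg fun p hp => (GBX_gg p (Nat.prime_of_mem_primeFactors hp)).1
  · exact prod_le_one (fun p hp => (GBX_gg p (Nat.prime_of_mem_primeFactors hp)).1)
      fun p hp => (GBX_gg p (Nat.prime_of_mem_primeFactors hp)).2

private theorem GBX_cu (x A m k : ℕ) (hx : 1 ≤ x) (hm : 1 ≤ m) (hk : k ≤ m) :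
    x ≤ cu1 x m k ∧ cu1 x m k ≤ cu2 x A m k ∧ cu2 x A m k ≤ 64 * x ^ 2 := by
  have hx' : (1 : ℝ) ≤ x := by exact_mod_cast hx
  have hm' : (1 : ℝ) ≤ m := by exact_mod_cast hm
  have hk' : (k : ℝ) ≤ m := by exact_mod_cast hk
  have hk0 : (0 : ℝ) ≤ k := Nat.cast_nonneg k
  have ht0 : 0 ≤ (k : ℝ) / (2 * m) := by positivity
  have ht1 : (k : ℝ) / (2 * m) ≤ 1 / 2 := by
    rw [div_le_div_iff₀ (by linarith) (by norm_num)]
    linarith
  obtain ⟨t, ht⟩ : ∃ t : ℝ, t = (k : ℝ) / (2 * m) := ⟨_, rfl⟩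
  have h1 : 1 ≤ Real.cosh t := Real.one_le_cosh t
  have h2 : Real.cosh t ≤ Real.exp t := by
    rw [Real.cosh_eq]
    have : Real.exp (-t) ≤ Real.exp t := Real.exp_le_exp.2 (by linarith)
    linarith
  have h3 : Real.cosh t ^ 2 ≤ 8 := by
    have e1 : Real.cosh t ^ 2 ≤ Real.exp t ^ 2 := by
      exact pow_le_pow_left₀ (by linarith) h2 2
    have e2 : Real.exp t ^ 2 = Real.exp (2 * t) := by
      rw [← Real.exp_nat_mul]
      norm_num
    have e3 : Real.exp (2 * t) ≤ Real.exp 1 := Real.exp_le_exp.2 (by linarith)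
    have e4 := Real.exp_one_lt_d9
    linarith
  have h4 : 1 ≤ Real.cosh t ^ 2 := one_le_pow₀ h1
  have hxx : (x : ℝ) ≤ (x : ℝ) ^ 2 := by nlinarith
  have c1 : x ≤ cu1 x m k := by
    unfold cu1
    rw [← ht]
    refine Nat.le_floor ?_
    rw [le_div_iff₀ (by linarith)]
    have : (x : ℝ) * Real.cosh t ^ 2 ≤ x * 8 := mul_le_mul_of_nonneg_left h3 (by linarith)
    linarith
  have c2 : cu1 x m k ≤ 64 * x ^ 2 := by
    unfold cu1
    rw [← ht]
    refine Nat.floor_le_of_le ?_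
    rw [div_le_iff₀ (by linarith)]
    push_cast
    nlinarith [sq_nonneg (x : ℝ)]
  refine ⟨c1, le_max_left _ _, max_le c2 ?_⟩
  rw [← ht]
  refine Nat.floor_le_of_le ?_
  refine (min_le_left _ _).trans ?_
  rw [div_le_iff₀ (by linarith)]
  push_cast
  nlinarith [sq_nonneg (x : ℝ)]

private theorem GBX_lep : 1 ≤ lep := by
  unfold lep
  rw [Real.le_log_iff_exp_le (by positivity)]
  have h1 := Real.exp_one_lt_d9
  have h2 : 0 ≤ √(8 : ℝ) := Real.sqrt_nonneg _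
  linarith

theorem GBX (hGBB : GBB_stmt) (hGBR : GBR_stmt) (hGDA : GDA_stmt) : GBX_stmt := by
  intro B
  obtain ⟨C₁, hC₁, hB⟩ := hGBB
  obtain ⟨C₂, hC₂, hR⟩ := hGBR
  obtain ⟨x₁, hD⟩ := hGDA (2 * B + 8) (B + 4)
  obtain ⟨C, hC⟩ : ∃ C : ℝ, C = C₁ + C₂ + 1 := ⟨_, rfl⟩
  have hC0 : 1 ≤ C := by rw [hC]; linarith
  have ev1 : ∀ᶠ x : ℕ in Filter.atTop, 10 * C ≤ Real.log x :=
    (Real.tendsto_log_atTop.comp tendsto_natCast_atTop_atTop).eventually_ge_atTop _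
  have ev2 : ∀ᶠ x : ℕ in Filter.atTop, Real.log x ^ (B + 1) ≤ 1 / (10 * C) * x := by
    have h := (Real.isLittleO_pow_log_id_atTop (n := B + 1)).comp_tendsto tendsto_natCast_atTop_atTop (k := ((↑) : ℕ → ℝ))
    have h2 := h.def (c := 1 / (10 * C)) (by positivity)
    filter_upwards [h2, ev1] with x h3 h4
    simp only [Function.comp, id, Real.norm_eq_abs] at h3
    have h5 : 0 ≤ Real.log x := by linarith
    rw [abs_of_nonneg (pow_nonneg h5 _), abs_of_nonneg (Nat.cast_nonneg x)] at h3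
    exact h3
  obtain ⟨x₂, hx₂⟩ := Filter.eventually_atTop.1 (ev1.and ev2)
  refine ⟨max x₁ (max x₂ 2), ?_⟩
  intro x hx d hdsf hd A hA1 hAx
  have hxx₁ : x₁ ≤ x := (le_max_left _ _).trans hx
  have hxx₂ : x₂ ≤ x := ((le_max_left _ _).trans (le_max_right _ _)).trans hx
  have hx2 : 2 ≤ x := ((le_max_right _ _).trans (le_max_right _ _)).trans hx
  obtain ⟨hL, hLx⟩ := hx₂ x hxx₂
  obtain ⟨L, hLdef⟩ : ∃ L : ℝ, L = Real.log x := ⟨_, rfl⟩
  rw [← hLdef] at hL hLx hd ⊢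
  have hL10 : 10 ≤ L := by linarith
  have hxR : (2 : ℝ) ≤ x := by exact_mod_cast hx2
  have hd1 : 1 ≤ d := Nat.one_le_iff_ne_zero.2 hdsf.ne_zero
  obtain ⟨m, hm⟩ : ∃ m : ℕ, m = ⌈L ^ (B + 3)⌉₊ := ⟨_, rfl⟩
  have hm1 : L ^ (B + 3) ≤ m := by rw [hm]; exact Nat.le_ceil _
  have hm2 : (m : ℝ) ≤ L ^ (B + 4) := by
    have h1 : (m : ℝ) < L ^ (B + 3) + 1 := by
      rw [hm]
      exact Nat.ceil_lt_add_one (by positivity)
    have h2 : (1 : ℝ) ≤ L ^ (B + 3) := one_le_pow₀ (by linarith)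
    have h3 : L ^ (B + 4) = L ^ (B + 3) * L := by ring
    rw [h3]
    nlinarith
  have hm10 : 10 ≤ m := by
    have h1 : L ≤ L ^ (B + 3) := by
      have := pow_le_pow_right₀ (by linarith : (1 : ℝ) ≤ L) (by omega : 1 ≤ B + 3)
      simpa using this
    have h2 : (10 : ℝ) ≤ m := by linarith
    exact_mod_cast h2
  have hm0 : (0 : ℝ) < m := by
    have : (10 : ℝ) ≤ m := by exact_mod_cast hm10
    linarith
  obtain ⟨P, hP⟩ : ∃ P : ℝ, P = ∏ p ∈ d.primeFactors, gg p := ⟨_, rfl⟩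
  obtain ⟨hP0, hP1⟩ := GBX_P d
  rw [← hP] at hP0 hP1 ⊢
  have hlep := GBX_lep
  have g1 := hB x A m d hx2 hA1 hAx hm10 hd1
  have g2 := hR x A m hA1 hAx hm10
  rw [← hLdef] at g1
  have g3 : ∀ k ∈ Ico 1 m, |Gd (cu1 x m k) (cu2 x A m k) (1 / m) (k / m) d -
      P * ((1 / m) * ((cu2 x A m k : ℝ) - cu1 x m k) / (4 * lep))| ≤ x ^ 2 / L ^ (2 * B + 8) := by
    intro k hk
    rw [mem_Ico] at hk
    obtain ⟨u1, u2, u3⟩ := GBX_cu x A m k (by omega) (by omega) (by omega)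
    have hk1 : (1 : ℝ) ≤ k := by exact_mod_cast hk.1
    have hk2 : (k : ℝ) + 1 ≤ m := by exact_mod_cast hk.2
    have h := hD x hxx₁ d hdsf ?_ (cu1 x m k) (cu2 x A m k) u1 u2 u3 (1 / m) (k / m) ?_ ?_ ?_
    · rw [← hLdef, ← hP] at h
      exact h
    · rw [← hLdef]
      refine hd.trans ?_
      exact pow_le_pow_right₀ (by linarith) (by omega)
    · rw [← hLdef]
      exact one_div_le_one_div_of_le hm0 hm2
    · exact div_le_div_of_nonneg_right hk1 hm0.le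
    · rw [← add_div, div_le_one hm0]
      exact hk2
  have g4 : |∑ k ∈ Ico 1 m, Gd (cu1 x m k) (cu2 x A m k) (1 / m) (k / m) d -
      P / (4 * lep) * ∑ k ∈ Ico 1 m, (1 / (m : ℝ)) * ((cu2 x A m k : ℝ) - cu1 x m k)| ≤ x ^ 2 / L ^ (B + 4) := by
    rw [mul_sum, ← sum_sub_distrib]
    refine (abs_sum_le_sum_abs _ _).trans ?_
    have e1 : ∑ k ∈ Ico 1 m, |Gd (cu1 x m k) (cu2 x A m k) (1 / m) (k / m) d -
        P / (4 * lep) * ((1 / (m : ℝ)) * ((cu2 x A m k : ℝ) - cu1 x m k))| ≤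
        ∑ _k ∈ Ico 1 m, (x : ℝ) ^ 2 / L ^ (2 * B + 8) := by
      refine sum_le_sum fun k hk => ?_
      have e2 : P / (4 * lep) * ((1 / (m : ℝ)) * ((cu2 x A m k : ℝ) - cu1 x m k)) =
          P * ((1 / m) * ((cu2 x A m k : ℝ) - cu1 x m k) / (4 * lep)) := by ring
      rw [e2]
      exact g3 k hk
    refine e1.trans ?_
    rw [sum_const, Nat.card_Ico, nsmul_eq_mul]
    have e3 : ((m - 1 : ℕ) : ℝ) ≤ L ^ (B + 4) := by
      refine le_trans ?_ hm2
      exact_mod_cast Nat.sub_le m 1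
    have e4 : L ^ (2 * B + 8) = L ^ (B + 4) * L ^ (B + 4) := by
      rw [← pow_add]
      congr 1
      ring
    have e5 : 0 < L ^ (B + 4) := by positivity
    rw [e4, ← mul_div_assoc, div_le_div_iff₀ (by positivity) e5]
    have e6 : 0 ≤ (x : ℝ) ^ 2 * L ^ (B + 4) := by positivity
    calc ((m - 1 : ℕ) : ℝ) * (x : ℝ) ^ 2 * L ^ (B + 4) = ((m - 1 : ℕ) : ℝ) * ((x : ℝ) ^ 2 * L ^ (B + 4)) := by ring
      _ ≤ L ^ (B + 4) * ((x : ℝ) ^ 2 * L ^ (B + 4)) := mul_le_mul_of_nonneg_right e3 e6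
      _ = (x : ℝ) ^ 2 * (L ^ (B + 4) * L ^ (B + 4)) := by ring
  have hq0 : 0 ≤ P / (4 * lep) := by positivity
  have hq1 : P / (4 * lep) ≤ 1 := by
    rw [div_le_one (by linarith)]
    linarith
  have g5 : |P / (4 * lep) * ∑ k ∈ Ico 1 m, (1 / (m : ℝ)) * ((cu2 x A m k : ℝ) - cu1 x m k) -
      P * (√8 / lep * (A * x))| ≤ C₂ * ((x : ℝ) ^ 2 / m + 1) := by
    have e1 : P * (√8 / lep * (A * x)) = P / (4 * lep) * (4 * √8 * (A * x)) := by
      field_simp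
    rw [e1, ← mul_sub, abs_mul, abs_of_nonneg hq0]
    calc P / (4 * lep) * |∑ k ∈ Ico 1 m, (1 / (m : ℝ)) * ((cu2 x A m k : ℝ) - cu1 x m k) - 4 * √8 * (A * x)|
        ≤ 1 * |∑ k ∈ Ico 1 m, (1 / (m : ℝ)) * ((cu2 x A m k : ℝ) - cu1 x m k) - 4 * √8 * (A * x)| :=
          mul_le_mul_of_nonneg_right hq1 (abs_nonneg _)
      _ ≤ _ := by rw [one_mul]; exact g2
  -- the errors
  obtain ⟨Y, hY⟩ : ∃ Y : ℝ, Y = (x : ℝ) ^ 2 / L ^ B := ⟨_, rfl⟩
  have hLB : 0 < L ^ B := by positivity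
  have hYL : Y * L ^ B = (x : ℝ) ^ 2 := by
    rw [hY]
    field_simp
  have hY0 : 0 ≤ Y := by rw [hY]; positivity
  have q1 : (x : ℝ) ^ 2 / m ≤ Y / L ^ 3 := by
    have e1 : Y / L ^ 3 = (x : ℝ) ^ 2 / L ^ (B + 3) := by
      rw [hY, div_div, ← pow_add]
    rw [e1]
    exact div_le_div_of_nonneg_left (by positivity) (by positivity) hm1
  obtain ⟨z, hz⟩ : ∃ z : ℝ, z = Y / L ^ 3 := ⟨_, rfl⟩
  have hz3 : Y = z * L ^ 3 := by
    rw [hz]
    field_simp
  have hz0 : 0 ≤ z := by rw [hz]; positivity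
  rw [← hz] at q1
  have hCL1 : 10 * C₁ ≤ L := by
    have : C₁ ≤ C := by rw [hC]; linarith
    linarith
  have hCL2 : 10 * C₂ ≤ L := by
    have : C₂ ≤ C := by rw [hC]; linarith
    linarith
  have t1 : C₁ * x * (x / m) * L ≤ Y / 5 := by
    have e1 : C₁ * x * (x / m) * L = C₁ * L * ((x : ℝ) ^ 2 / m) := by ring
    rw [e1, hz3]
    have e2 : C₁ * L * ((x : ℝ) ^ 2 / m) ≤ C₁ * L * z := mul_le_mul_of_nonneg_left q1 (by positivity)
    have e3 : C₁ * L * z ≤ L * L * z := by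
      refine mul_le_mul_of_nonneg_right (mul_le_mul_of_nonneg_right ?_ (by linarith)) hz0
      linarith
    have e4 : L * L * z * 5 ≤ z * L ^ 3 := by
      have e5 : z * L ^ 3 = L * L * z * L := by ring
      rw [e5]
      exact mul_le_mul_of_nonneg_left (by linarith) (by positivity)
    linarith
  have t3 : C₂ * ((x : ℝ) ^ 2 / m) ≤ Y / 5 := by
    have e2 : C₂ * ((x : ℝ) ^ 2 / m) ≤ C₂ * z := mul_le_mul_of_nonneg_left q1 hC₂.le
    have e3 : C₂ * z ≤ L * z := mul_le_mul_of_nonneg_right (by linarith) hz0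
    have e4 : L * z * 5 ≤ z * L ^ 3 := by
      have e5 : z * L ^ 3 = L * z * (L ^ 2) := by ring
      rw [e5]
      refine mul_le_mul_of_nonneg_left ?_ (by positivity)
      nlinarith
    rw [hz3]
    linarith
  have hpow : L ^ (B + 1) * (10 * C) ≤ x := by
    have := mul_le_mul_of_nonneg_right hLx (by linarith : 0 ≤ 10 * C)
    have e : 1 / (10 * C) * (x : ℝ) * (10 * C) = x := by
      field_simp
    rw [e] at this
    exact this
  have hpow1 : 0 < L ^ (B + 1) := by positivity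
  have hpowB : L ^ (B + 1) = L ^ B * L := by ring
  have t2 : C₁ * x * L ≤ Y / 5 := by
    rw [hY, div_div, le_div_iff₀ (by positivity)]
    have e1 : C₁ * x * L * (L ^ B * 5) = x * (L ^ (B + 1) * (5 * C₁)) := by
      rw [hpowB]
      ring
    rw [e1, pow_two]
    refine mul_le_mul_of_nonneg_left ?_ (by linarith)
    refine le_trans ?_ hpow
    refine mul_le_mul_of_nonneg_left ?_ hpow1.le
    rw [hC]
    linarith
  have t4 : C₂ ≤ Y / 5 := by
    rw [hY, div_div, le_div_iff₀ (by positivity)]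
    have e1 : C₂ * (L ^ B * 5) ≤ L ^ (B + 1) * (10 * C) := by
      rw [hpowB]
      have e2 : C₂ * (L ^ B * 5) = L ^ B * (5 * C₂) := by ring
      have e3 : L ^ B * L * (10 * C) = L ^ B * (L * (10 * C)) := by ring
      rw [e2, e3]
      refine mul_le_mul_of_nonneg_left ?_ hLB.le
      have : C₂ ≤ C := by rw [hC]; linarith
      nlinarith
    nlinarith
  have t5 : (x : ℝ) ^ 2 / L ^ (B + 4) ≤ Y / 5 := by
    have e1 : (x : ℝ) ^ 2 / L ^ (B + 4) = z / L := by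
      rw [hz, hY, div_div, div_div]
      congr 1
      ring
    rw [e1, div_le_iff₀ (by linarith), hz3]
    have e2 : z * L ^ 3 / 5 * L = z * (L ^ 4 / 5) := by ring
    rw [e2]
    have e3 : 1 ≤ L ^ 4 / 5 := by
      have : L ≤ L ^ 4 := by
        have := pow_le_pow_right₀ (by linarith : (1 : ℝ) ≤ L) (by omega : 1 ≤ 4)
        simpa using this
      linarith
    nlinarith
  rw [← hY]
  have hfin := abs_sub_le (∑ ζ ∈ PZ x A with ((nn ζ).Prime ∧ (d : ℤ) ∣ ζ.2), Real.log (nn ζ))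
    (∑ k ∈ Ico 1 m, Gd (cu1 x m k) (cu2 x A m k) (1 / m) (k / m) d) (P * (√8 / lep * (A * x)))
  have hfin2 := abs_sub_le (∑ k ∈ Ico 1 m, Gd (cu1 x m k) (cu2 x A m k) (1 / m) (k / m) d)
    (P / (4 * lep) * ∑ k ∈ Ico 1 m, (1 / (m : ℝ)) * ((cu2 x A m k : ℝ) - cu1 x m k)) (P * (√8 / lep * (A * x)))
  have s1 : C₁ * x * (x / m + 1) * L = C₁ * x * (x / m) * L + C₁ * x * L := by ring
  have s2 : C₂ * ((x : ℝ) ^ 2 / m + 1) = C₂ * ((x : ℝ) ^ 2 / m) + C₂ := by ring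
  linarith

end Pool.Agent.FI
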